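import Pool.Agent.K1H69.RG.ZN

/-!
# `S_RES` from `S_THETA`: Landau's argument (piece of RG, A1b)
-/

set_option autoImplicit false

namespace Pool.Agent.K1H69.RG

open Filter Finset Topology NumberField MeasureTheory Set
open Pool.Agent.K1H76.RG

lemma int_pow {c r : ℝ} (hc : 0 ≤ c) (hr : -1 < r) :
    IntegrableOn (fun u : ℝ => u ^ r) (Ioc 0 c) ∧
      ∫ u in Ioc 0 c, u ^ r = c ^ (r + 1) / (r + 1) := by
  constructor
  · have := intervalIntegral.intervalIntegrable_rpow' (a := 0) (b := c) hr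
    rwa [intervalIntegrable_iff_integrableOn_Ioc_of_le hc] at this
  · rw [← intervalIntegral.integral_of_le hc, integral_rpow (Or.inl hr),
      Real.zero_rpow (by linarith : r + 1 ≠ 0), sub_zero]

lemma inv_int {G' : ℝ → ℝ} {N s0 M : ℝ} (hN : 0 < N)
    (hI : IntegrableOn (fun u => G' u * u ^ (s0 - 1)) (Ioi 0))
    (hM : ∫ u in Ioi 0, G' u * u ^ (s0 - 1) = M) :
    IntegrableOn (fun u => G' (1 / (u * N)) * u ^ (-1 - s0)) (Ioi 0) ∧
      ∫ u in Ioi 0, G' (1 / (u * N)) * u ^ (-1 - s0) = N ^ s0 * M := by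
  set f : ℝ → ℝ := fun u => G' u * u ^ (s0 - 1) with hf
  set f1 : ℝ → ℝ := fun u => f (N⁻¹ * u) with hf1
  have hNi : 0 < N⁻¹ := inv_pos.mpr hN
  have h1 : IntegrableOn f1 (Ioi 0) := by
    rw [hf1, integrableOn_Ioi_comp_mul_left_iff f 0 hNi, mul_zero]; exact hI
  have h2 : ∫ u in Ioi 0, f1 u = N * M := by
    rw [hf1, integral_comp_mul_left_Ioi f 0 hNi, mul_zero, hM, inv_inv, smul_eq_mul]
  have hp : (-1 : ℝ) ≠ 0 := by norm_num
  have h3 := (integrableOn_Ioi_comp_rpow_iff f1 hp).mpr h1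
  have h4 := integral_comp_rpow_Ioi f1 hp
  have h5 : ∀ x ∈ Ioi (0 : ℝ), (|(-1 : ℝ)| * x ^ ((-1 : ℝ) - 1)) • f1 (x ^ (-1 : ℝ)) =
      N ^ (1 - s0) * (G' (1 / (x * N)) * x ^ (-1 - s0)) := by
    intro x hx
    have hx0 : (0 : ℝ) < x := hx
    have e1 : N⁻¹ * x ^ (-1 : ℝ) = 1 / (x * N) := by
      rw [Real.rpow_neg_one, one_div, mul_inv, mul_comm]
    have e2 : (1 / (x * N)) ^ (s0 - 1) = x ^ (1 - s0) * N ^ (1 - s0) := by
      rw [one_div, Real.inv_rpow (by positivity), ← Real.rpow_neg (by positivity),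
        Real.mul_rpow hx0.le hN.le, neg_sub]
    have e3 : x ^ ((-1 : ℝ) - 1) * x ^ (1 - s0) = x ^ (-1 - s0) := by
      rw [← Real.rpow_add hx0]; congr 1; ring
    simp only [smul_eq_mul, abs_neg, abs_one, one_mul, hf1, hf]
    rw [e1, e2, ← e3]; ring
  have h6 : IntegrableOn (fun x => N ^ (1 - s0) * (G' (1 / (x * N)) * x ^ (-1 - s0))) (Ioi 0) :=
    h3.congr_fun h5 measurableSet_Ioi
  have h7 : ∫ x in Ioi 0, N ^ (1 - s0) * (G' (1 / (x * N)) * x ^ (-1 - s0)) = N * M := by
    rw [← h2, ← h4]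
    exact (setIntegral_congr_fun measurableSet_Ioi h5).symm
  have hc : N ^ (1 - s0) ≠ 0 := (Real.rpow_pos_of_pos hN _).ne'
  constructor
  · have h8 : IntegrableOn (fun x => (N ^ (1 - s0))⁻¹ *
        (N ^ (1 - s0) * (G' (1 / (x * N)) * x ^ (-1 - s0)))) (Ioi 0) := h6.const_mul _
    refine h8.congr_fun ?_ measurableSet_Ioi
    intro x _
    simp only
    rw [← mul_assoc, inv_mul_cancel₀ hc, one_mul]
  · rw [integral_const_mul] at h7
    have e : N ^ s0 * M = (N ^ (1 - s0))⁻¹ * (N * M) := by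
      have e1 : N ^ s0 = (N ^ (1 - s0))⁻¹ * N := by
        rw [← Real.rpow_neg hN.le]
        nth_rewrite 3 [← Real.rpow_one N]
        rw [← Real.rpow_add hN]; congr 1; ring
      rw [e1]; ring
    rw [e, ← h7, ← mul_assoc, inv_mul_cancel₀ hc, one_mul]

lemma landau {h V N : ℝ} {G G' : ℝ → ℝ} (hh : 0 ≤ h) (hV : 1 ≤ V) (hN : N = V ^ 2)
    (hG : ∀ u, 0 < u → 0 ≤ G u ∧ 0 ≤ G' u)
    (fe : ∀ u, 0 < u → h + G (1 / u) = u / V * (h + G' (u / N))) {M : ℝ → ℝ}
    (hM : ∀ s, 1 < s → IntegrableOn (fun u => G u * u ^ (s - 1)) (Ioi 0) ∧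
      ∫ u in Ioi 0, G u * u ^ (s - 1) = M s)
    (hM' : ∀ s, 1 < s → IntegrableOn (fun u => G' u * u ^ (s - 1)) (Ioi 0) ∧
      ∫ u in Ioi 0, G' u * u ^ (s - 1) = M s)
    {s s0 : ℝ} (h1 : 1 < s) (h2 : s ≤ s0) :
    h * V ^ (-s0) / (s0 * (s0 - 1)) ≤ M s0 ∧
      (s - 1) * M s ≤ h * V ^ (-s) + 2 * (s - 1) * V ^ (s0 - s) * M s0 := by
  have hV0 : 0 < V := by linarith
  have hN0 : 0 < N := by rw [hN]; positivity
  have hs0 : 1 < s0 := by linarith
  have hc : (0 : ℝ) ≤ 1 / V := by positivity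
  have hc' : (0 : ℝ) < 1 / V := by positivity
  -- formula for `G` near `0`
  have key : ∀ u, 0 < u → G u = h / V * u⁻¹ + 1 / V * (u⁻¹ * G' (1 / (u * N))) - h := by
    intro u hu
    have := fe u⁻¹ (inv_pos.mpr hu)
    rw [one_div, inv_inv] at this
    have e : u⁻¹ / N = 1 / (u * N) := by rw [one_div, mul_inv, div_eq_mul_inv]
    rw [e] at this
    have e2 : G u = u⁻¹ / V * (h + G' (1 / (u * N))) - h := by linarith
    rw [e2]; ring
  have pw : ∀ (u : ℝ), 0 < u → ∀ t : ℝ, u⁻¹ * u ^ (t - 1) = u ^ (t - 2) := by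
    intro u hu t
    rw [← Real.rpow_neg_one, ← Real.rpow_add hu]; congr 1; ring
  have hn0 : ∀ u, 0 < u → 0 ≤ G' (1 / (u * N)) := fun u hu => (hG _ (by positivity)).2
  have sub : Ioc (0 : ℝ) (1 / V) ⊆ Ioi 0 := fun x hx => hx.1
  have nonneg : ∀ t : ℝ, ∀ u ∈ Ioi (0 : ℝ), 0 ≤ G u * u ^ (t - 1) := fun t u hu =>
    mul_nonneg (hG u hu).1 (Real.rpow_nonneg (le_of_lt hu) _)
  have Vneg : ∀ t : ℝ, (1 / V) ^ t = V ^ (-t) := fun t => by
    rw [one_div, Real.inv_rpow hV0.le, ← Real.rpow_neg hV0.le]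
  have Vone : ∀ t : ℝ, 1 / V * V ^ t = V ^ (t - 1) := fun t => by
    rw [Real.rpow_sub_one hV0.ne']; ring
  refine ⟨?_, ?_⟩
  · -- lower bound
    have hI := int_pow hc (r := s0 - 2) (by linarith)
    have hJ := int_pow hc (r := s0 - 1) (by linarith)
    have hint : IntegrableOn (fun u : ℝ => h / V * u ^ (s0 - 2) - h * u ^ (s0 - 1))
        (Ioc 0 (1 / V)) := (hI.1.const_mul _).sub (hJ.1.const_mul _)
    have a1 : ∫ u in Ioc 0 (1 / V), (h / V * u ^ (s0 - 2) - h * u ^ (s0 - 1)) ≤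
        ∫ u in Ioc 0 (1 / V), G u * u ^ (s0 - 1) := by
      refine setIntegral_mono_on hint ((hM s0 hs0).1.mono_set sub) measurableSet_Ioc ?_
      intro u hu
      have hu0 : 0 < u := hu.1
      rw [key u hu0, ← pw u hu0]
      have : 0 ≤ 1 / V * (u⁻¹ * G' (1 / (u * N))) * u ^ (s0 - 1) := by
        have := hn0 u hu0; positivity
      nlinarith
    have a2 : ∫ u in Ioc 0 (1 / V), G u * u ^ (s0 - 1) ≤ M s0 := by
      rw [← (hM s0 hs0).2]
      refine setIntegral_mono_set (hM s0 hs0).1 ?_ (LE.le.eventuallyLE sub)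
      exact (ae_restrict_iff' measurableSet_Ioi).mpr (ae_of_all _ (nonneg s0))
    have a3 : ∫ u in Ioc 0 (1 / V), (h / V * u ^ (s0 - 2) - h * u ^ (s0 - 1)) =
        h * V ^ (-s0) / (s0 * (s0 - 1)) := by
      rw [integral_sub (hI.1.const_mul _) (hJ.1.const_mul _), integral_const_mul,
        integral_const_mul, hI.2, hJ.2, Vneg, Vneg]
      have e1 : -(s0 - 2 + 1) = -s0 + 1 := by ring
      have e2 : -(s0 - 1 + 1) = -s0 := by ring
      rw [e1, e2, Real.rpow_add_one hV0.ne']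
      have : s0 - 1 ≠ 0 := by linarith
      have : s0 ≠ 0 := by linarith
      have e3 : s0 - 2 + 1 = s0 - 1 := by ring
      have e4 : s0 - 1 + 1 = s0 := by ring
      rw [e3, e4]
      field_simp
      ring
    linarith
  · -- upper bound
    have hI := int_pow hc (r := s - 2) (by linarith)
    obtain ⟨hD, hD2⟩ := inv_int hN0 (hM' s0 hs0).1 (hM' s0 hs0).2
    set D : ℝ → ℝ := fun u => G' (1 / (u * N)) * u ^ (-1 - s0) with hDdef
    have hint : IntegrableOn (fun u : ℝ => h / V * u ^ (s - 2) + V ^ (-s - s0) * D u)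
        (Ioc 0 (1 / V)) := (hI.1.const_mul _).add ((hD.mono_set sub).const_mul _)
    have a1 : ∫ u in Ioc 0 (1 / V), G u * u ^ (s - 1) ≤
        ∫ u in Ioc 0 (1 / V), (h / V * u ^ (s - 2) + V ^ (-s - s0) * D u) := by
      refine setIntegral_mono_on ((hM s h1).1.mono_set sub) hint measurableSet_Ioc ?_
      intro u hu
      have hu0 : 0 < u := hu.1
      rw [key u hu0, ← pw u hu0]
      have b1 : 0 ≤ h * u ^ (s - 1) := by positivity
      have b2 : 1 / V * (u⁻¹ * G' (1 / (u * N))) * u ^ (s - 1) ≤ V ^ (-s - s0) * D u := by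
        have c1 : u⁻¹ * u ^ (s - 1) = u ^ (-1 - s0) * u ^ (s + s0 - 1) := by
          rw [pw u hu0, ← Real.rpow_add hu0]; congr 1; ring
        have c2 : u ^ (s + s0 - 1) ≤ V ^ (1 - s - s0) := by
          have := Real.rpow_le_rpow hu0.le hu.2 (by linarith : 0 ≤ s + s0 - 1)
          rw [Vneg] at this
          convert this using 2; ring
        have c3 : 1 / V * V ^ (1 - s - s0) = V ^ (-s - s0) := by
          rw [Vone]; congr 1; ring
        calc 1 / V * (u⁻¹ * G' (1 / (u * N))) * u ^ (s - 1)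
            = 1 / V * (D u * u ^ (s + s0 - 1)) := by
              rw [hDdef]; simp only
              have : 1 / V * (u⁻¹ * G' (1 / (u * N))) * u ^ (s - 1) =
                1 / V * G' (1 / (u * N)) * (u⁻¹ * u ^ (s - 1)) := by ring
              rw [this, c1]; ring
          _ ≤ 1 / V * (D u * V ^ (1 - s - s0)) := by
              have hD0 : 0 ≤ D u := by
                have := hn0 u hu0; rw [hDdef]; simp only; positivity
              gcongr
          _ = V ^ (-s - s0) * D u := by rw [← c3]; ring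
      nlinarith
    have a2 : ∫ u in Ioc 0 (1 / V), (h / V * u ^ (s - 2) + V ^ (-s - s0) * D u) ≤
        h * V ^ (-s) / (s - 1) + V ^ (s0 - s) * M s0 := by
      rw [integral_add (hI.1.const_mul _) ((hD.mono_set sub).const_mul _), integral_const_mul,
        integral_const_mul, hI.2, Vneg]
      have e1 : h / V * (V ^ (-(s - 2 + 1)) / (s - 2 + 1)) = h * V ^ (-s) / (s - 1) := by
        have e1 : -(s - 2 + 1) = -s + 1 := by ring
        have e3 : s - 2 + 1 = s - 1 := by ring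
        rw [e1, e3, Real.rpow_add_one hV0.ne']
        field_simp
      have e2 : ∫ u in Ioc 0 (1 / V), D u ≤ N ^ s0 * M s0 := by
        rw [← hD2]
        refine setIntegral_mono_set hD ?_ (LE.le.eventuallyLE sub)
        refine (ae_restrict_iff' measurableSet_Ioi).mpr (ae_of_all _ ?_)
        intro u hu
        have := hn0 u hu
        have hu0 : 0 < u := hu
        show 0 ≤ D u
        rw [hDdef]; simp only; positivity
      have e3 : V ^ (-s - s0) * (N ^ s0 * M s0) = V ^ (s0 - s) * M s0 := by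
        have : N ^ s0 = V ^ (2 * s0) := by
          rw [hN, ← Real.rpow_natCast, ← Real.rpow_mul hV0.le]; norm_num
        rw [this, ← mul_assoc, ← Real.rpow_add hV0]; congr 2; ring
      rw [e1, ← e3]
      gcongr
    have a3 : ∫ u in Ioi (1 / V), G u * u ^ (s - 1) ≤ V ^ (s0 - s) * M s0 := by
      have sub2 : Ioi (1 / V) ⊆ Ioi 0 := Ioi_subset_Ioi hc
      have b1 : ∫ u in Ioi (1 / V), G u * u ^ (s - 1) ≤
          ∫ u in Ioi (1 / V), V ^ (s0 - s) * (G u * u ^ (s0 - 1)) := by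
        refine setIntegral_mono_on ((hM s h1).1.mono_set sub2)
          (((hM s0 hs0).1.mono_set sub2).const_mul _) measurableSet_Ioi ?_
        intro u hu
        have hu0 : 0 < u := lt_of_lt_of_le hc' (le_of_lt hu)
        have c1 : u ^ (s - 1) = u ^ (s0 - 1) * u ^ (s - s0) := by
          rw [← Real.rpow_add hu0]; congr 1; ring
        have c2 : u ^ (s - s0) ≤ V ^ (s0 - s) := by
          have := Real.rpow_le_rpow_of_nonpos hc' (le_of_lt hu) (by linarith : s - s0 ≤ 0)
          rwa [Vneg, neg_sub] at this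
        rw [c1]
        have c3 : 0 ≤ G u * u ^ (s0 - 1) := nonneg s0 u hu0
        nlinarith
      refine b1.trans ?_
      rw [integral_const_mul]
      have b2 : ∫ u in Ioi (1 / V), G u * u ^ (s0 - 1) ≤ M s0 := by
        rw [← (hM s0 hs0).2]
        refine setIntegral_mono_set (hM s0 hs0).1 ?_ (LE.le.eventuallyLE sub2)
        exact (ae_restrict_iff' measurableSet_Ioi).mpr (ae_of_all _ (nonneg s0))
      gcongr
    have a4 : M s = (∫ u in Ioc 0 (1 / V), G u * u ^ (s - 1)) +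
        ∫ u in Ioi (1 / V), G u * u ^ (s - 1) := by
      rw [← (hM s h1).2, ← Ioc_union_Ioi_eq_Ioi hc]
      refine setIntegral_union (Ioc_disjoint_Ioi le_rfl) measurableSet_Ioi
        ((hM s h1).1.mono_set sub) ((hM s h1).1.mono_set (Ioi_subset_Ioi hc))
    have a5 : M s ≤ h * V ^ (-s) / (s - 1) + 2 * (V ^ (s0 - s) * M s0) := by linarith
    have hs1 : 0 < s - 1 := by linarith
    calc (s - 1) * M s ≤ (s - 1) * (h * V ^ (-s) / (s - 1) + 2 * (V ^ (s0 - s) * M s0)) := by
          gcongr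
      _ = h * V ^ (-s) + 2 * (s - 1) * V ^ (s0 - s) * M s0 := by
          field_simp

lemma gR_bounds : ∃ m B : ℝ, 0 < m ∧ m ≤ B ∧ ∀ s : ℝ, 1 ≤ s → s ≤ 3 → m ≤ gR s ∧ gR s ≤ B := by
  have hcont : ContinuousOn gR (Icc 1 3) := by
    intro s hs
    apply ContinuousAt.continuousWithinAt
    unfold gR
    apply ContinuousAt.mul
    · apply ContinuousAt.rpow continuousAt_const (by fun_prop)
      left; exact Real.pi_pos.ne'
    · have h1 : ContinuousAt Real.Gamma (s / 2) := by
        refine (Real.differentiableAt_Gamma ?_).continuousAt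
        intro m hm
        have : (0 : ℝ) < s / 2 := by linarith [hs.1]
        have h2 : (0 : ℝ) ≤ m := Nat.cast_nonneg m
        linarith
      exact ContinuousAt.comp (f := fun s : ℝ => s / 2) (g := Real.Gamma) h1 (by fun_prop)
  have hpos : ∀ s ∈ Icc (1 : ℝ) 3, 0 < gR s := by
    intro s hs
    exact mul_pos (Real.rpow_pos_of_pos Real.pi_pos _) (Real.Gamma_pos_of_pos (by linarith [hs.1]))
  have hne : (Icc (1 : ℝ) 3).Nonempty := ⟨1, by norm_num, by norm_num⟩
  obtain ⟨x, hx, hxm⟩ := isCompact_Icc.exists_isMinOn hne hcont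
  obtain ⟨y, hy, hyM⟩ := isCompact_Icc.exists_isMaxOn hne hcont
  exact ⟨gR x, gR y, hpos x hx, hxm hy, fun s h1 h3 => ⟨hxm ⟨h1, h3⟩, hyM ⟨h1, h3⟩⟩⟩

theorem t_RES (hT : S_THETA) : S_RES := by
  intro n
  obtain ⟨m, B, hm, hmB, hg⟩ := gR_bounds
  have hB : 0 < B := by linarith
  set C : ℝ := 4 * Real.exp 1 * (B / m) ^ n * 3 ^ n + 3 ^ n with hC
  refine ⟨C, by positivity, ?_⟩
  intro E _ _ hn s hs hs2
  obtain ⟨hsum, hZs⟩ := t_ZN E s hs
  refine ⟨hsum, ?_⟩
  obtain ⟨c, h, a, b, G, G', hc, hh, hab, hG, fe, hM, hM'⟩ := hT E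
  change (s - 1) * ZK E s ≤ _
  set N : ℝ := |(discr E : ℝ)| with hN
  have hN1 : 1 ≤ N := by
    have h1 : discr E ≠ 0 := discr_ne_zero E
    have h2 : 1 ≤ |discr E| := Int.one_le_abs h1
    rw [hN]; exact_mod_cast h2
  set V : ℝ := Real.sqrt N with hVdef
  have hV1 : 1 ≤ V := by rw [hVdef]; exact Real.one_le_sqrt.mpr hN1
  have hV0 : 0 < V := by linarith
  have hNV : N = V ^ 2 := by rw [hVdef, Real.sq_sqrt (by linarith)]
  have hlogN : 0 ≤ Real.log N := Real.log_nonneg hN1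
  set L : ℝ := Real.log (3 * V) with hL
  have hlog3 : 1 < Real.log 3 := by
    have := Real.exp_one_lt_d9
    rw [Real.lt_log_iff_exp_lt (by norm_num)]; linarith
  have hLV : L = Real.log 3 + Real.log V := by
    rw [hL, Real.log_mul (by norm_num) hV0.ne']
  have hlogV : 0 ≤ Real.log V := Real.log_nonneg hV1
  have hlogV2 : Real.log V ≤ Real.log N := by
    rw [hNV, Real.log_pow]; push_cast; linarith
  have hL1 : 1 < L := by linarith
  have hL3 : 1 + L ≤ 3 * (1 + Real.log N) := by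
    have : Real.log 3 ≤ 2 := by
      rw [Real.log_le_iff_le_exp (by norm_num)]
      have h1 := Real.add_one_le_exp (2 : ℝ)
      linarith
    linarith
  have hZ0 : ∀ t : ℝ, 0 ≤ ZK E t := fun t => tsum_nonneg fun I =>
    Real.rpow_nonneg (Nat.cast_nonneg _) _
  set s0 : ℝ := 1 + 1 / L with hs0
  have hLi : 0 < 1 / L := by positivity
  have hs01 : 1 < s0 := by linarith
  have hs02 : s0 ≤ 2 := by
    have : 1 / L ≤ 1 := by rw [div_le_one (by linarith)]; linarith
    linarith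
  have hpow1 : (1 + L) ^ n ≤ 3 ^ n * (1 + Real.log N) ^ n := by
    rw [← mul_pow]; gcongr
  have hlogn : 0 ≤ (1 + Real.log N) ^ n := by positivity
  have hinv : 1 / (s0 - 1) = L := by rw [hs0]; simp
  rcases le_total s s0 with hcase | hcase
  · -- Landau's argument
    set M : ℝ → ℝ := fun s => c * (gR s ^ a * gR (s + 1) ^ b * ZK E s) with hMdef
    obtain ⟨l1, l2⟩ := landau (h := (h : ℝ)) (V := V) (N := N) (G := G) (G' := G') (M := M)
      (Nat.cast_nonneg _) hV1 hNV hG fe hM hM' hs hcase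
    have gpos : ∀ t : ℝ, 1 ≤ t → t ≤ 2 → m ^ n ≤ gR t ^ a * gR (t + 1) ^ b ∧
        gR t ^ a * gR (t + 1) ^ b ≤ B ^ n := by
      intro t h1 h2
      obtain ⟨p1, p2⟩ := hg t h1 (by linarith)
      obtain ⟨q1, q2⟩ := hg (t + 1) (by linarith) (by linarith)
      rw [← hn, ← hab, pow_add, pow_add]
      have : 0 ≤ gR t := by linarith
      have : 0 ≤ gR (t + 1) := by linarith
      constructor
      · gcongr
      · gcongr
    have hVe : V ^ (s0 - 1) ≤ Real.exp 1 := by
      rw [Real.rpow_def_of_pos hV0]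
      apply Real.exp_le_exp.mpr
      have : s0 - 1 = 1 / L := by rw [hs0]; ring
      rw [this, mul_one_div, div_le_one (by linarith)]
      linarith
    have hM0 : 0 ≤ M s0 := by
      have := (gpos s0 hs01.le hs02).1
      have hm' : 0 < m ^ n := by positivity
      have h3 := hZ0 s0
      rw [hMdef]; simp only
      have : 0 ≤ gR s0 ^ a * gR (s0 + 1) ^ b := by linarith
      positivity
    -- h/V
    have d1 : (h : ℝ) * V ^ (-s) ≤ 2 * Real.exp 1 * (s0 - 1) * M s0 := by
      have e1 : (h : ℝ) * V ^ (-s) ≤ h * V ^ (-1 : ℝ) := by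
        gcongr
      have e2 : (h : ℝ) * V ^ (-1 : ℝ) = (h * V ^ (-s0) / (s0 * (s0 - 1))) *
          (s0 * (s0 - 1) * V ^ (s0 - 1)) := by
        have : V ^ (-1 : ℝ) = V ^ (-s0) * V ^ (s0 - 1) := by
          rw [← Real.rpow_add hV0]; congr 1; ring
        rw [this]
        have : s0 ≠ 0 := by linarith
        have : s0 - 1 ≠ 0 := by linarith
        field_simp
      have e3 : s0 * (s0 - 1) * V ^ (s0 - 1) ≤ 2 * (s0 - 1) * Real.exp 1 := by
        have : 0 < s0 - 1 := by linarith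
        gcongr
      have e4 : 0 ≤ s0 * (s0 - 1) * V ^ (s0 - 1) := by
        have : 0 < s0 - 1 := by linarith
        have : 0 < s0 := by linarith
        positivity
      calc (h : ℝ) * V ^ (-s) ≤ (h * V ^ (-s0) / (s0 * (s0 - 1))) *
          (s0 * (s0 - 1) * V ^ (s0 - 1)) := by rw [← e2]; exact e1
        _ ≤ M s0 * (2 * (s0 - 1) * Real.exp 1) := by gcongr
        _ = _ := by ring
    have d2 : 2 * (s - 1) * V ^ (s0 - s) * M s0 ≤ 2 * Real.exp 1 * (s0 - 1) * M s0 := by
      have e1 : V ^ (s0 - s) ≤ Real.exp 1 := by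
        refine le_trans ?_ hVe
        exact Real.rpow_le_rpow_of_exponent_le hV1 (by linarith)
      have e2 : 0 ≤ V ^ (s0 - s) := by positivity
      have e3 : (s - 1) * V ^ (s0 - s) ≤ (s0 - 1) * Real.exp 1 := by
        have : 0 ≤ s0 - 1 := by linarith
        gcongr
      have e4 := mul_le_mul_of_nonneg_right e3 hM0
      nlinarith
    have d3 : (s - 1) * M s ≤ 4 * Real.exp 1 * (s0 - 1) * M s0 := by linarith
    -- remove the constant `c`
    have d4 : (s - 1) * (gR s ^ a * gR (s + 1) ^ b * ZK E s) ≤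
        4 * Real.exp 1 * (s0 - 1) * (gR s0 ^ a * gR (s0 + 1) ^ b * ZK E s0) := by
      have : c * ((s - 1) * (gR s ^ a * gR (s + 1) ^ b * ZK E s)) ≤
          c * (4 * Real.exp 1 * (s0 - 1) * (gR s0 ^ a * gR (s0 + 1) ^ b * ZK E s0)) := by
        rw [hMdef] at d3; simp only at d3; linarith
      exact le_of_mul_le_mul_left this hc
    have d5 : m ^ n * ((s - 1) * ZK E s) ≤
        4 * Real.exp 1 * (s0 - 1) * (B ^ n * ZK E s0) := by
      have hs1 : 0 ≤ s - 1 := by linarith
      have hs1' : 0 ≤ s0 - 1 := by linarith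
      calc m ^ n * ((s - 1) * ZK E s) = (s - 1) * (m ^ n * ZK E s) := by ring
        _ ≤ (s - 1) * (gR s ^ a * gR (s + 1) ^ b * ZK E s) := by
            gcongr
            · exact hZ0 s
            · exact (gpos s hs.le hs2).1
        _ ≤ _ := d4
        _ ≤ _ := by
            gcongr
            · exact hZ0 s0
            · exact (gpos s0 hs01.le hs02).2
    have d6 : ZK E s0 ≤ (1 + L) ^ n := by
      have := (t_ZN E s0 hs01).2
      rwa [hinv, hn] at this
    have d7 : (s - 1) * ZK E s ≤ 4 * Real.exp 1 * (B / m) ^ n * (1 + L) ^ n := by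
      have hmn : 0 < m ^ n := by positivity
      rw [div_pow]
      have hs1' : s0 - 1 ≤ 1 := by linarith
      have hs1'' : 0 ≤ s0 - 1 := by linarith
      have : m ^ n * ((s - 1) * ZK E s) ≤ m ^ n * (4 * Real.exp 1 * (B ^ n / m ^ n) * (1 + L) ^ n) := by
        calc m ^ n * ((s - 1) * ZK E s) ≤ 4 * Real.exp 1 * (s0 - 1) * (B ^ n * ZK E s0) := d5
          _ ≤ 4 * Real.exp 1 * 1 * (B ^ n * (1 + L) ^ n) := by
              have := hZ0 s0
              gcongr
          _ = _ := by field_simp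
      exact le_of_mul_le_mul_left this hmn
    calc (s - 1) * ZK E s ≤ 4 * Real.exp 1 * (B / m) ^ n * (1 + L) ^ n := d7
      _ ≤ 4 * Real.exp 1 * (B / m) ^ n * (3 ^ n * (1 + Real.log N) ^ n) := by gcongr
      _ ≤ C * (1 + Real.log N) ^ n := by
          rw [hC, ← mul_assoc]
          exact mul_le_mul_of_nonneg_right (by linarith [pow_pos (show (0 : ℝ) < 3 by norm_num) n])
            hlogn
  · have hs1 : 0 < s - 1 := by linarith
    have e1 : 1 / (s - 1) ≤ L := by
      rw [← hinv]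
      apply one_div_le_one_div_of_le (by linarith) (by linarith)
    have e2 : ZK E s ≤ (1 + L) ^ n := by
      rw [hn] at hZs
      refine hZs.trans ?_
      gcongr
    calc (s - 1) * ZK E s ≤ 1 * (1 + L) ^ n := by
          have := hZ0 s
          gcongr
          linarith
      _ ≤ 3 ^ n * (1 + Real.log N) ^ n := by rw [one_mul]; exact hpow1
      _ ≤ C * (1 + Real.log N) ^ n := by
          have : 0 ≤ 4 * Real.exp 1 * (B / m) ^ n * 3 ^ n := by positivity
          exact mul_le_mul_of_nonneg_right (by linarith) hlogn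

end Pool.Agent.K1H69.RG
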