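import Pool.Agent.K1H76.RG.Stm2

/-!
# The trivial bound `ζ_K(s) ≤ (1 + 1/(s-1))^n` (piece of RG, A1b)

The nonzero ideals inject into the `n`-tuples `(m_1, …, m_n)` of positive integers with
`m_1 ⋯ m_n ≤ N(I)`.
-/

set_option autoImplicit false

namespace Pool.Agent.K1H69.RG

open Filter Finset Topology NumberField MeasureTheory Ideal UniqueFactorizationMonoid
open Pool.Agent.K1H76.RG

section Real

lemma telesc {s : ℝ} (hs : 1 < s) (m : ℕ) (hm : 1 ≤ m) :
    ((m : ℝ) + 1) ^ (-s) ≤ ((m : ℝ) ^ (1 - s) - ((m : ℝ) + 1) ^ (1 - s)) / (s - 1) := by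
  have hm0 : (0 : ℝ) < m := by exact_mod_cast hm
  have hx0 : (0 : ℝ) < (m : ℝ) + 1 := by linarith
  set x : ℝ := (m : ℝ) + 1 with hx
  rw [le_div_iff₀ (by linarith)]
  have h1 : (m : ℝ) ^ (1 - s) = x ^ (1 - s) * (x / m) ^ (s - 1) := by
    rw [Real.div_rpow hx0.le hm0.le, mul_div_assoc', ← Real.rpow_add hx0]
    rw [show (1 - s) + (s - 1) = 0 by ring, Real.rpow_zero, one_div, ← Real.rpow_neg hm0.le]
    congr 1; ring
  have h2 : 1 + (s - 1) / x ≤ (x / m) ^ (s - 1) := by
    have hy : 0 < x / m := by positivity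
    rw [Real.rpow_def_of_pos hy]
    have h3 := Real.add_one_le_exp (Real.log (x / m) * (s - 1))
    have h4 := Real.one_sub_inv_le_log_of_pos hy
    have h5 : 1 - (x / m)⁻¹ = 1 / x := by
      rw [inv_div]; field_simp; rw [hx]; ring
    rw [h5] at h4
    have h6 : (1 / x) * (s - 1) ≤ Real.log (x / m) * (s - 1) :=
      mul_le_mul_of_nonneg_right h4 (by linarith)
    have h7 : (s - 1) / x = (1 / x) * (s - 1) := by ring
    linarith
  have h3 : x ^ (-s) = x ^ (1 - s) / x := by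
    rw [← Real.rpow_sub_one hx0.ne']; congr 1; ring
  rw [h1, h3]
  have h4 : 0 < x ^ (1 - s) := Real.rpow_pos_of_pos hx0 _
  have h5 : x ^ (1 - s) * (1 + (s - 1) / x) ≤ x ^ (1 - s) * (x / m) ^ (s - 1) :=
    mul_le_mul_of_nonneg_left h2 h4.le
  have h6 : x ^ (1 - s) / x * (s - 1) = x ^ (1 - s) * (1 + (s - 1) / x) - x ^ (1 - s) := by
    field_simp; ring
  linarith

lemma zsum {s : ℝ} (hs : 1 < s) (B : ℕ) (hB : 1 ≤ B) :
    ∑ m ∈ Finset.Icc 1 B, (m : ℝ) ^ (-s) ≤ 1 + (1 - (B : ℝ) ^ (1 - s)) / (s - 1) := by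
  induction B, hB using Nat.le_induction with
  | base => simp
  | succ B hB ih =>
    rw [Finset.sum_Icc_succ_top (by omega)]
    have h := telesc hs B hB
    push_cast
    have e : (1 - ((B : ℝ) + 1) ^ (1 - s)) / (s - 1) = (1 - (B : ℝ) ^ (1 - s)) / (s - 1) +
        ((B : ℝ) ^ (1 - s) - ((B : ℝ) + 1) ^ (1 - s)) / (s - 1) := by
      rw [← add_div]; congr 1; ring
    rw [e]
    linarith

lemma zsum' {s : ℝ} (hs : 1 < s) (B : ℕ) :
    ∑ m ∈ Finset.Icc 1 B, (m : ℝ) ^ (-s) ≤ 1 + 1 / (s - 1) := by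
  have hs1 : 0 < s - 1 := by linarith
  rcases Nat.eq_zero_or_pos B with h | h
  · subst h; simp; positivity
  · refine (zsum hs B h).trans ?_
    gcongr
    have : 0 ≤ (B : ℝ) ^ (1 - s) := by positivity
    linarith

end Real

section Zeta
variable (K : Type) [Field K] [NumberField K]

/-- rational prime below -/
noncomputable def pr (P : Ideal (𝓞 K)) : ℕ := absNorm (Ideal.under ℤ P)

/-- the primes above `p` -/
noncomputable def above (p : ℕ) : Finset (Ideal (𝓞 K)) :=
  open Classical in (normalizedFactors (Ideal.span {((p : ℕ) : 𝓞 K)})).toFinset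

/-- index of `P` among the primes above the same rational prime -/
noncomputable def idx (P : Ideal (𝓞 K)) : ℕ :=
  open Classical in (above K (pr K P)).toList.idxOf P

/-- the `i`-th integer attached to a multiset of primes -/
noncomputable def mi (i : ℕ) (s : Multiset (Ideal (𝓞 K))) : ℕ :=
  (s.map fun P => if idx K P = i then pr K P else 1).prod

variable {K}

lemma pr_prime {P : Ideal (𝓞 K)} (hP : P.IsPrime) (h0 : P ≠ ⊥) : (pr K P).Prime := by
  haveI : NeZero P := ⟨h0⟩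
  exact Nat.absNorm_under_prime P

lemma pr_mem (P : Ideal (𝓞 K)) : ((pr K P : ℕ) : 𝓞 K) ∈ P := Int.absNorm_under_mem P

lemma absNorm_pos' {P : Ideal (𝓞 K)} (h0 : P ≠ ⊥) : 0 < absNorm P :=
  Nat.pos_of_ne_zero (by rwa [Ne, absNorm_eq_zero_iff])

lemma pr_le {P : Ideal (𝓞 K)} (h0 : P ≠ ⊥) : pr K P ≤ absNorm P :=
  Nat.le_of_dvd (absNorm_pos' h0) (Int.absNorm_under_dvd_absNorm P)

lemma mem_above {P : Ideal (𝓞 K)} (hP : P.IsPrime) (h0 : P ≠ ⊥) : P ∈ above K (pr K P) := by
  classical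
  have hp := pr_prime hP h0
  rw [above, Multiset.mem_toFinset]
  have hP' : Prime P := Ideal.prime_of_isPrime h0 hP
  have hs : Ideal.span {((pr K P : ℕ) : 𝓞 K)} ≠ ⊥ := by
    rw [Ne, Ideal.span_singleton_eq_bot]
    exact_mod_cast hp.ne_zero
  have hd : P ∣ Ideal.span {((pr K P : ℕ) : 𝓞 K)} := by
    rw [Ideal.dvd_span_singleton]; exact pr_mem P
  obtain ⟨Q, hQ, hPQ⟩ := exists_mem_normalizedFactors_of_dvd hs hP'.irreducible hd
  rw [← associated_iff_eq.mp hPQ] at hQ
  exact hQ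

lemma card_above (p : ℕ) (hp : p.Prime) : (above K p).card ≤ Module.finrank ℚ K := by
  classical
  have hs : Ideal.span {((p : ℕ) : 𝓞 K)} ≠ ⊥ := by
    rw [Ne, Ideal.span_singleton_eq_bot]
    exact_mod_cast hp.ne_zero
  have hprime : ∀ P ∈ above K p, Prime P := fun P hP =>
    prime_of_normalized_factor P (Multiset.mem_toFinset.mp hP)
  have hdvd : ∀ P ∈ above K p, P ∣ Ideal.span {((p : ℕ) : 𝓞 K)} := fun P hP =>
    dvd_of_mem_normalizedFactors (Multiset.mem_toFinset.mp hP)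
  have h1 : ∏ P ∈ above K p, P ∣ Ideal.span {((p : ℕ) : 𝓞 K)} := by
    have := Finset.prod_primes_dvd (s := above K p) (Ideal.span {((p : ℕ) : 𝓞 K)}) hprime hdvd
    exact this
  have h2 := map_dvd (Ideal.absNorm (S := 𝓞 K)) h1
  rw [Ideal.absNorm_span_natCast, RingOfIntegers.rank, map_prod] at h2
  have h3 : ∀ P ∈ above K p, p ≤ absNorm P := by
    intro P hP
    have h4 : absNorm P ∣ p ^ Module.finrank ℚ K := by
      have := map_dvd (Ideal.absNorm (S := 𝓞 K)) (hdvd P hP)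
      rwa [Ideal.absNorm_span_natCast, RingOfIntegers.rank] at this
    obtain ⟨k, _, hk⟩ := (Nat.dvd_prime_pow hp).mp h4
    have h5 : absNorm P ≠ 1 := by
      rw [Ne, Ideal.absNorm_eq_one_iff]
      exact fun h => (hprime P hP).not_isUnit (Ideal.isUnit_iff.mpr h)
    have hk0 : k ≠ 0 := by
      rintro rfl
      exact h5 (by simpa using hk)
    rw [hk]
    exact Nat.le_self_pow hk0 p
  have h6 : p ^ (above K p).card ≤ p ^ Module.finrank ℚ K :=
    calc p ^ (above K p).card = ∏ P ∈ above K p, p := by rw [Finset.prod_const]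
      _ ≤ ∏ P ∈ above K p, absNorm P := Finset.prod_le_prod' h3
      _ ≤ p ^ Module.finrank ℚ K := Nat.le_of_dvd (pow_pos hp.pos _) h2
  exact (Nat.pow_le_pow_iff_right hp.one_lt).mp h6

lemma idx_lt {P : Ideal (𝓞 K)} (hP : P.IsPrime) (h0 : P ≠ ⊥) : idx K P < Module.finrank ℚ K := by
  classical
  refine lt_of_lt_of_le ?_ (card_above (pr K P) (pr_prime hP h0))
  have h : P ∈ (above K (pr K P)).toList := Finset.mem_toList.mpr (mem_above hP h0)
  have := List.idxOf_lt_length_iff.mpr h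
  rw [Finset.length_toList] at this
  exact this

lemma idx_inj {P Q : Ideal (𝓞 K)} (hP : P.IsPrime) (h0 : P ≠ ⊥)
    (h1 : pr K P = pr K Q) (h2 : idx K P = idx K Q) : P = Q := by
  classical
  have h : P ∈ (above K (pr K P)).toList := Finset.mem_toList.mpr (mem_above hP h0)
  rw [idx, idx, ← h1] at h2
  exact (List.idxOf_inj h).mp h2

lemma mi_cons (i : ℕ) (P : Ideal (𝓞 K)) (s : Multiset (Ideal (𝓞 K))) :
    mi K i (P ::ₘ s) = (if idx K P = i then pr K P else 1) * mi K i s := by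
  simp [mi]

lemma mi_zero (i : ℕ) : mi K i 0 = 1 := by simp [mi]

/-- all elements are nonzero primes -/
def Ok (s : Multiset (Ideal (𝓞 K))) : Prop := ∀ P ∈ s, P.IsPrime ∧ P ≠ ⊥

lemma mi_pos (i : ℕ) (s : Multiset (Ideal (𝓞 K))) (hs : Ok s) : 1 ≤ mi K i s := by
  induction s using Multiset.induction_on with
  | empty => simp [mi_zero]
  | cons P s ih =>
    rw [mi_cons]
    have h1 := ih fun Q hQ => hs Q (Multiset.mem_cons_of_mem hQ)
    obtain ⟨hP, h0⟩ := hs P (Multiset.mem_cons_self P s)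
    have h2 : 1 ≤ if idx K P = i then pr K P else 1 := by
      split_ifs
      · exact (pr_prime hP h0).one_lt.le
      · exact le_rfl
    exact one_le_mul h2 h1

lemma prod_mi (s : Multiset (Ideal (𝓞 K))) (hs : Ok s) :
    ∏ i : Fin (Module.finrank ℚ K), mi K i s ≤ absNorm s.prod := by
  induction s using Multiset.induction_on with
  | empty => simp [mi_zero]
  | cons P s ih =>
    simp_rw [mi_cons]
    rw [Finset.prod_mul_distrib, Multiset.prod_cons, map_mul]
    obtain ⟨hP, h0⟩ := hs P (Multiset.mem_cons_self P s)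
    refine Nat.mul_le_mul ?_ (ih fun Q hQ => hs Q (Multiset.mem_cons_of_mem hQ))
    have h1 : ∏ i : Fin (Module.finrank ℚ K), (if idx K P = (i : ℕ) then pr K P else 1) =
        pr K P := by
      have h2 : ∀ i : Fin (Module.finrank ℚ K), (idx K P = (i : ℕ)) ↔
          (⟨idx K P, idx_lt hP h0⟩ : Fin _) = i := by
        intro i
        constructor
        · intro h; exact Fin.ext h
        · intro h; rw [← h]
      simp_rw [h2]
      rw [Finset.prod_ite_eq]
      simp
    rw [h1]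
    exact pr_le h0

open Classical in
lemma mi_fact {P : Ideal (𝓞 K)} (hP : P.IsPrime) (h0 : P ≠ ⊥) (s : Multiset (Ideal (𝓞 K)))
    (hs : Ok s) : (mi K (idx K P) s).factorization (pr K P) = s.count P := by
  induction s using Multiset.induction_on with
  | empty => simp [mi_zero]
  | cons Q s ih =>
    have hs' : Ok s := fun Q hQ => hs Q (Multiset.mem_cons_of_mem hQ)
    obtain ⟨hQ, hQ0⟩ := hs Q (Multiset.mem_cons_self Q s)
    rw [mi_cons]
    have h2 : (if idx K Q = idx K P then pr K Q else 1) ≠ 0 := by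
      split_ifs
      · exact (pr_prime hQ hQ0).ne_zero
      · exact one_ne_zero
    rw [Nat.factorization_mul h2 (by have := mi_pos (idx K P) s hs'; omega), Finsupp.add_apply,
      ih hs']
    by_cases h : P = Q
    · subst h
      rw [if_pos rfl, (pr_prime hP h0).factorization_self, Multiset.count_cons_self, add_comm]
    · rw [Multiset.count_cons_of_ne h]
      split_ifs with h3
      · have h4 : pr K P ≠ pr K Q := fun h5 => h (idx_inj hP h0 h5 h3.symm)
        rw [(pr_prime hQ hQ0).factorization, Finsupp.single_eq_of_ne h4, zero_add]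
      · simp

lemma ok_nf {I : Ideal (𝓞 K)} : Ok (normalizedFactors I) := by
  intro P hP
  have := prime_of_normalized_factor P hP
  exact ⟨Ideal.isPrime_of_prime this, this.ne_zero⟩

/-- the tuple attached to an ideal -/
noncomputable def tup (I : {I : Ideal (𝓞 K) // I ≠ ⊥}) : Fin (Module.finrank ℚ K) → ℕ :=
  fun i => mi K i (normalizedFactors I.1)

lemma tup_inj : Function.Injective (tup (K := K)) := by
  classical
  intro I J h
  have h1 : normalizedFactors I.1 = normalizedFactors J.1 := by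
    ext P
    by_cases hP : P.IsPrime ∧ P ≠ ⊥
    · rw [← mi_fact hP.1 hP.2 _ ok_nf, ← mi_fact hP.1 hP.2 _ ok_nf]
      have := congrFun h ⟨idx K P, idx_lt hP.1 hP.2⟩
      simp only [tup] at this
      rw [this]
    · rw [Multiset.count_eq_zero_of_notMem (fun h => hP (ok_nf P h)),
        Multiset.count_eq_zero_of_notMem (fun h => hP (ok_nf P h))]
  apply Subtype.ext
  rw [← Ideal.prod_normalizedFactors_eq_self I.2, h1, Ideal.prod_normalizedFactors_eq_self J.2]

lemma tup_pos (I : {I : Ideal (𝓞 K) // I ≠ ⊥}) (i : Fin (Module.finrank ℚ K)) : 1 ≤ tup I i :=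
  mi_pos _ _ ok_nf

lemma tup_prod (I : {I : Ideal (𝓞 K) // I ≠ ⊥}) :
    ∏ i, tup I i ≤ absNorm I.1 := by
  have := prod_mi (normalizedFactors I.1) ok_nf
  rwa [Ideal.prod_normalizedFactors_eq_self I.2] at this

lemma fin_bound {s : ℝ} (hs : 1 < s) (F : Finset {I : Ideal (𝓞 K) // I ≠ ⊥}) :
    ∑ I ∈ F, ((absNorm I.1 : ℕ) : ℝ) ^ (-s) ≤ (1 + 1 / (s - 1)) ^ Module.finrank ℚ K := by
  classical
  set n := Module.finrank ℚ K
  obtain ⟨B, hB⟩ : ∃ B : ℕ, ∀ I ∈ F, ∀ i, tup I i ≤ B := by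
    refine ⟨∑ I ∈ F, ∑ i, tup I i, fun I hI i => ?_⟩
    calc tup I i ≤ ∑ j, tup I j := Finset.single_le_sum (fun _ _ => Nat.zero_le _) (Finset.mem_univ i)
      _ ≤ _ := Finset.single_le_sum (f := fun I => ∑ j, tup I j) (fun _ _ => Nat.zero_le _) hI
  calc ∑ I ∈ F, ((absNorm I.1 : ℕ) : ℝ) ^ (-s)
      ≤ ∑ I ∈ F, ∏ i, (tup I i : ℝ) ^ (-s) := by
        refine Finset.sum_le_sum fun I _ => ?_
        have h1 : ((∏ i, tup I i : ℕ) : ℝ) ≤ (absNorm I.1 : ℕ) := by exact_mod_cast tup_prod I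
        have h2 : (0 : ℝ) < ((∏ i, tup I i : ℕ) : ℝ) := by
          have : 0 < ∏ i, tup I i := Finset.prod_pos fun i _ => tup_pos I i
          exact_mod_cast this
        have h3 : ∏ i, (tup I i : ℝ) ^ (-s) = ((∏ i, tup I i : ℕ) : ℝ) ^ (-s) := by
          push_cast
          rw [Real.finsetProd_rpow _ _ (fun i _ => Nat.cast_nonneg _)]
        rw [h3]
        exact Real.rpow_le_rpow_of_nonpos h2 h1 (by linarith)
    _ = ∑ f ∈ F.image tup, ∏ i, (f i : ℝ) ^ (-s) := by
        rw [Finset.sum_image fun I _ J _ h => tup_inj h]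
    _ ≤ ∑ f ∈ Fintype.piFinset (fun _ : Fin n => Finset.Icc 1 B), ∏ i, (f i : ℝ) ^ (-s) := by
        refine Finset.sum_le_sum_of_subset_of_nonneg ?_ fun f _ _ =>
          Finset.prod_nonneg fun i _ => Real.rpow_nonneg (Nat.cast_nonneg _) _
        intro f hf
        obtain ⟨I, hI, rfl⟩ := Finset.mem_image.mp hf
        rw [Fintype.mem_piFinset]
        exact fun i => Finset.mem_Icc.mpr ⟨tup_pos I i, hB I hI i⟩
    _ = ∏ i : Fin n, ∑ m ∈ Finset.Icc 1 B, (m : ℝ) ^ (-s) := by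
        rw [Finset.prod_univ_sum]
    _ ≤ ∏ i : Fin n, (1 + 1 / (s - 1)) := by
        refine Finset.prod_le_prod (fun i _ => Finset.sum_nonneg fun m _ =>
          Real.rpow_nonneg (Nat.cast_nonneg _) _) fun i _ => zsum' hs B
    _ = (1 + 1 / (s - 1)) ^ n := by simp

end Zeta

theorem t_ZN : S_ZN := by
  intro K _ _ s hs
  have h0 : ∀ I : {I : Ideal (𝓞 K) // I ≠ ⊥}, 0 ≤ ((Ideal.absNorm I.1 : ℕ) : ℝ) ^ (-s) :=
    fun I => Real.rpow_nonneg (Nat.cast_nonneg _) _
  have h1 := summable_of_sum_le h0 (fin_bound (K := K) hs)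
  exact ⟨h1, h1.tsum_le_of_sum_le (fin_bound (K := K) hs)⟩

end Pool.Agent.K1H69.RG
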